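import Mathlib
import Pool.Agent.Helper832.PNa
import Pool.Agent.Helper832.PNd
import Pool.Agent.Helper832.PNe
import Pool.Agent.Helper832.FLg
import Pool.Agent.Helper832.PNj
import Pool.Agent.Helper832.PNl
import Pool.Agent.Helper832.PNxd
import Pool.Agent.Helper832.PNxe
import Pool.Agent.Helper832.PNxf

set_option autoImplicit false

namespace Pool.Agent.Results.MP_0546f5_an.AllClasses

open Pool.Agent.Helper832 Pool.Agent.Helper832.PN

universe u

/-- Every left module (a complete Hausdorff locally convex space with jointly continuous action)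
over the polynormed algebra `A` is flat. -/
def AllFlatPoly (A : Type u) [NonUnitalRing A] [Module ℂ A] [UniformSpace A] [IsPolyAlg A] :
    Prop :=
  ∀ (X : Type u) [AddCommGroup X] [Module ℂ X] [UniformSpace X] [IsPolynormed X]
    (l : A → X → X), IsLeftMod l → FlatLeft l

section Sanity

/-- Sanity check: for Fréchet spaces topological exactness is algebraic exactness. -/
theorem topExact_frechet {T' T T'' : Type u} [AddCommGroup T'] [Module ℂ T'] [UniformSpace T']
    [IsPolynormed T'] [FirstCountableTopology T'] [AddCommGroup T] [Module ℂ T] [UniformSpace T]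
    [IsPolynormed T] [FirstCountableTopology T] [AddCommGroup T''] [Module ℂ T'']
    [UniformSpace T''] [IsPolynormed T''] [FirstCountableTopology T''] {φ : T' → T}
    {ψ : T → T''} (hφ : IsContLin φ) (hψ : IsContLin ψ) :
    IsTopExact φ ψ ↔ Function.Injective φ ∧ Set.range φ = {t | ψ t = 0} ∧
      Function.Surjective ψ :=
  topExact_iff_of_frechet hφ hψ

/-- Sanity check: for Banach spaces topological exactness is algebraic exactness. -/
theorem topExact_banach {T' T T'' : Type u} [NormedAddCommGroup T'] [NormedSpace ℂ T']
    [CompleteSpace T'] [NormedAddCommGroup T] [NormedSpace ℂ T] [CompleteSpace T]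
    [NormedAddCommGroup T''] [NormedSpace ℂ T''] [CompleteSpace T''] {φ : T' → T} {ψ : T → T''}
    (hφ : IsContLin φ) (hψ : IsContLin ψ) :
    IsTopExact φ ψ ↔ Function.Injective φ ∧ Set.range φ = {t | ψ t = 0} ∧
      Function.Surjective ψ :=
  topExact_iff_of_banach hφ hψ

/-- Sanity check: the hypothesis of the theorem holds for the algebra `ℂ`. -/
theorem allFlatPoly_complex : AllFlatPoly ℂ := fun _ _ _ _ _ l _ => flatLeft_complex l

/-- Sanity check: completed tensor products over `A` exist. -/
theorem exists_tensorOver {A X Y : Type u} [NonUnitalRing A] [Module ℂ A] [UniformSpace A]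
    [AddCommGroup X] [Module ℂ X] [UniformSpace X] [IsPolynormed X]
    [AddCommGroup Y] [Module ℂ Y] [UniformSpace Y] [IsPolynormed Y]
    (r : Y → A → Y) (l : A → X → X) :
    ∃ (T : Type u) (_ : AddCommGroup T) (_ : Module ℂ T) (_ : UniformSpace T)
      (_ : IsPolynormed T) (t : Y → X → T), IsTensorOver r l t :=
  ⟨PB r l, inferInstance, inferInstance, inferInstance, inferInstance, pb r l,
    isTensorOver_pb r l⟩

/-- Sanity check: completed tensor products of bimodules with `A₊` exist. -/
theorem exists_biTensor {A V : Type u} [NonUnitalRing A] [Module ℂ A] [UniformSpace A]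
    [IsPolyAlg A] [AddCommGroup V] [Module ℂ V] [UniformSpace V] [IsPolynormed V]
    {l : A → V → V} {r : V → A → V} (hV : IsBimod l r) :
    ∃ (T : Type u) (_ : AddCommGroup T) (_ : Module ℂ T) (_ : UniformSpace T)
      (_ : IsPolynormed T) (t : V → ℂ × A → T), IsBiTensor l r t :=
  ⟨CoT l r, inferInstance, inferInstance, inferInstance, inferInstance, _, isBiTensor_co hV⟩

/-- Sanity check: every Banach algebra is a polynormed algebra. -/
theorem polyAlg_of_banach (A : Type u) [NonUnitalNormedRing A] [NormedSpace ℂ A]
    [IsScalarTower ℂ A A] [SMulCommClass ℂ A A] [CompleteSpace A] : IsPolyAlg A :=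
  isPolyAlg_of_banach A

/-- Sanity check: for a Banach algebra, amenability in the sense of class (a) implies
amenability in the sense of Johnson. -/
theorem johnson_of_amenableP (A : Type u) [NonUnitalNormedRing A] [NormedSpace ℂ A]
    [IsScalarTower ℂ A A] [SMulCommClass ℂ A A] [CompleteSpace A] [IsPolyAlg A]
    (h : AmenableP A) : AmenableBanach A :=
  amenableBanach_of_amenableP A h

end Sanity

/-- All three classes: an algebra all of whose left modules are flat is amenable, for
(a) polynormed algebras, (b) Banach algebras, (c) C*-algebras. -/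
theorem result :
    (∀ (A : Type u) [NonUnitalRing A] [Module ℂ A] [UniformSpace A] [IsPolyAlg A],
      AllFlatPoly A → AmenableP A) ∧
    (∀ (A : Type u) [NonUnitalNormedRing A] [NormedSpace ℂ A] [IsScalarTower ℂ A A]
      [SMulCommClass ℂ A A] [CompleteSpace A], AllFlatBanach A → AmenableBanach A) ∧
    (∀ (A : Type u) [NonUnitalCStarAlgebra A], AllFlatBanach A → AmenableBanach A) :=
  ⟨fun A _ _ _ _ h => extend_of_core (fun V _ _ _ _ l r hV Lam D hD hDm =>
      core h V l r hV Lam D hD hDm),
    fun A _ _ _ _ _ => FL.banach_result' A, fun A _ => FL.banach_result' A⟩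

end Pool.Agent.Results.MP_0546f5_an.AllClasses
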