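import Mathlib
import Pool.Agent.Helper832.PNa
import Pool.Agent.Helper832.PNd
import Pool.Agent.Helper832.PNe
import Pool.Agent.Helper832.FLg

set_option autoImplicit false

namespace Pool.Agent.Results.MP_0546f5_an.BanachCase

open Pool.Agent.Helper832 Pool.Agent.Helper832.PN

universe u

/-- Sanity check: the hypothesis is not vacuous, every left module over the Banach algebra `ℂ`
is flat. -/
theorem allFlatBanach_complex : AllFlatBanach ℂ := by
  intro X _ _ _ l hl Y' Y _ _ _ _ _ _ r' r i p hr' hr hi hp hir hpi f hf hfr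
  have hr1 : ∀ y c, r y c = c • r y 1 := by
    intro y c
    rw [← hr.bilin.smul_right, smul_eq_mul, mul_one]
  have hrr : ∀ y, r (r y 1) 1 = r y 1 := by
    intro y
    rw [← hr.mul, mul_one]
  have hrr' : ∀ y, r' (r' y 1) 1 = r' y 1 := by
    intro y
    rw [← hr'.mul, mul_one]
  have hl1 : ∀ c x, l c x = c • l 1 x := by
    intro c x
    rw [← hl.bilin.smul_left, smul_eq_mul, mul_one]
  have hll : ∀ x, l 1 (l 1 x) = l 1 x := by
    intro x
    rw [← hl.mul, mul_one]
  let e : X →L[ℂ] X := (hl.bilin.isContLin_right 1).toCLM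
  have he : ∀ x, e x = l 1 x := fun _ => rfl
  let S : (X →L[ℂ] ℂ) →L[ℂ] (X →L[ℂ] ℂ) := (ContinuousLinearMap.compL ℂ X X ℂ).flip e
  have hS : ∀ w x, S w x = w (l 1 x) := fun _ _ => rfl
  let R : Y →L[ℂ] Y := (hr.bilin.isContLin_left 1).toCLM
  have hR : ∀ y, R y = r y 1 := fun _ => rfl
  let F : Y' →L[ℂ] (X →L[ℂ] ℂ) := hf.toCLM
  have hF : ∀ y, F y = f y := fun _ => rfl
  let P : Y →L[ℂ] Y' := hp.toCLM
  have hP : ∀ y, P y = p y := fun _ => rfl
  let g : Y →L[ℂ] (X →L[ℂ] ℂ) := S.comp (F.comp (P.comp R)) +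
    ((F.comp (P.comp (ContinuousLinearMap.id ℂ Y - R))) -
      S.comp (F.comp (P.comp (ContinuousLinearMap.id ℂ Y - R))))
  have hg : ∀ y x, g y x = f (p (r y 1)) (l 1 x) +
      (f (p (y - r y 1)) x - f (p (y - r y 1)) (l 1 x)) := fun y x => rfl
  refine ⟨g, isContLin_clm g, ?_, ?_⟩
  · intro y c x
    rw [hr1 y c, map_smul, hl1 c x, map_smul]
    show c • g (r y 1) x = c • g y (l 1 x)
    congr 1
    rw [hg, hg, hrr, sub_self, hll]
    have h0 : p 0 = 0 := map_zero hp.toCLM
    have h1 : f 0 = 0 := map_zero hf.toCLM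
    rw [h0, h1]
    simp
  · intro y
    ext x
    rw [hg]
    have h2 : r (i y) 1 = i (r' y 1) := (hir y 1).symm
    have h3 : p (i y - r (i y) 1) = y - r' y 1 := by
      rw [h2]
      have := map_sub hp.toCLM (i y) (i (r' y 1))
      simp only [IsContLin.toCLM_apply] at this
      rw [this, hpi, hpi]
    have h4 : f (y - r' y 1) = f y - f (r' y 1) := map_sub hf.toCLM _ _
    rw [h3, h2, hpi, h4]
    simp only [ContinuousLinearMap.sub_apply, hfr, hll]
    ring

/-- Classes (b) and (c): a Banach algebra (in particular a C*-algebra) over which all left Banach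
modules are flat is amenable. -/
theorem result :
    (∀ (A : Type u) [NonUnitalNormedRing A] [NormedSpace ℂ A] [IsScalarTower ℂ A A]
      [SMulCommClass ℂ A A] [CompleteSpace A], AllFlatBanach A → AmenableBanach A) ∧
    (∀ (A : Type u) [NonUnitalCStarAlgebra A], AllFlatBanach A → AmenableBanach A) :=
  ⟨fun A _ _ _ _ _ => FL.banach_result' A, fun A _ => FL.banach_result' A⟩

end Pool.Agent.Results.MP_0546f5_an.BanachCase
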